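import Pool.Agent.FGT.WMain

set_option autoImplicit false

namespace Pool.Agent.Results.MP_515f4e_co.ConeTypes

open Pool.Agent.MP_515f4e_co Pool.Agent.FGT

/-- Let `G` be an infinite connected graph with degrees at most `D` and `R` a set of vertices such that
every ball is at most `C` times as large as some ball of the same radius with centre in `R`.  For `v ∈ R`
let `pr v` be a kernel descending to `v`: from `y ≠ v` one moves with probability `pr v y x` to a
neighbour `x` of `y` which is nearer to `v`.  Let `W v x l` be the total weight of the walks of length `l`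
from `x` away from `v`, that is the expected number of vertices `z` with
`dist v z = dist v x + l` whose random descending path passes through `x`
(`W v x 0 = 1`, `W v x (l + 1) = ∑ y, pr v y x * W v y l`).  If each function `l ↦ W v x l`
(`v ∈ R`, `x` a vertex) agrees up to a factor `C` with one of finitely many functions `F₁, …, F_Q`, then
the balls of `G` are not uniform expanders. -/
theorem result (V : Type) (G : SimpleGraph V) (hV : Infinite V) (hG : G.Connected) (D : ℕ)
    (hD : ∀ v : V, (G.neighborSet v).encard ≤ (D : ℕ∞)) (C : ℕ) (R : Set V)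
    (hR : ∀ (x : V) (n : ℕ), ∃ v ∈ R,
      {w : V | G.dist x w ≤ n}.ncard ≤ C * {w : V | G.dist v w ≤ n}.ncard)
    (pr : V → V → V → ℝ) (hpos : ∀ v ∈ R, ∀ y x, 0 ≤ pr v y x)
    (hsupp : ∀ v ∈ R, ∀ y x, pr v y x ≠ 0 → G.Adj x y ∧ G.dist v y = G.dist v x + 1)
    (hsum : ∀ v ∈ R, ∀ y, y ≠ v → ∑ᶠ x, pr v y x = 1)
    (W : V → V → ℕ → ℝ) (hW0 : ∀ v ∈ R, ∀ x, W v x 0 = 1)
    (hW : ∀ v ∈ R, ∀ x l, W v x (l + 1) = ∑ᶠ y, pr v y x * W v y l)
    (Q : ℕ) (F : Fin Q → ℕ → ℝ)
    (htype : ∀ v ∈ R, ∀ x, ∃ i : Fin Q, ∀ l : ℕ, W v x l ≤ C * F i l ∧ F i l ≤ C * W v x l)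
    (c : ℝ) (hc : 0 < c) :
    ∃ (v : V) (r : ℕ) (S : Finset V),
      (∀ w ∈ S, G.dist v w ≤ r) ∧ 0 < S.card ∧
      2 * S.card ≤ {w : V | G.dist v w ≤ r}.ncard ∧
      (({w : V | G.dist v w ≤ r ∧ w ∉ S ∧ ∃ s ∈ S, G.Adj s w}.ncard : ℕ) : ℝ) ≤
        c * (S.card : ℝ) := by
  have hWW : ∀ v ∈ R, ∀ l x, W v x l = WW (pr v) x l := by
    intro v hv l
    induction l with
    | zero =>
      intro x
      rw [hW0 v hv x]
      rfl
    | succ l ih =>
      intro x
      rw [hW v hv x l]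
      show _ = ∑ᶠ y, pr v y x * WW (pr v) y l
      refine finsum_congr fun y => ?_
      rw [ih y]
  by_contra hcon
  push Not at hcon
  refine wmain hG hD hc (fun v r S h1 h2 h3 => hcon v r S h1 h2 h3) R C hR pr
    (fun v hv => ⟨hpos v hv, hsupp v hv, hsum v hv⟩) F ?_
  intro v hv x
  obtain ⟨i, hi⟩ := htype v hv x
  refine ⟨i, fun l => ?_⟩
  rw [← hWW v hv l x]
  exact hi l

end Pool.Agent.Results.MP_515f4e_co.ConeTypes
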