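import Pool.Agent.FGQ.Core
import Pool.Agent.FGQ.Grow
import Pool.Agent.FGQ.Num

set_option autoImplicit false

namespace Pool.Agent.Results.MP_515f4e_co.ExpansionRate

open Pool.Agent.MP_515f4e_co Pool.Agent.FGQ

/-- In an infinite connected graph with degrees at most `D`, for all `n ≥ 2` and reals `lam, κ ≥ 1` with
`|B(v,r)| ≤ κ lam ^ r` for all vertices `v` and all `r ≤ n`, and `|B(x,n)| ≥ lam ^ n` for some vertex `x`,
some ball of radius at most `n` has Cheeger constant at most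
`1000 (D + 1) ^ 2 log (2 κ) / log n`. -/
theorem result (V : Type) (G : SimpleGraph V) (hV : Infinite V) (hG : G.Connected) (D : ℕ)
    (hD : ∀ v : V, (G.neighborSet v).encard ≤ (D : ℕ∞)) (n : ℕ) (lam κ : ℝ) (x : V)
    (hn : 2 ≤ n) (hlam : 1 ≤ lam) (hκ : 1 ≤ κ)
    (hx : lam ^ n ≤ ({w : V | G.dist x w ≤ n}.ncard : ℝ))
    (hup : ∀ (v : V) (r : ℕ), r ≤ n → ({w : V | G.dist v w ≤ r}.ncard : ℝ) ≤ κ * lam ^ r) :
    ∃ (v : V) (r : ℕ) (S : Finset V), r ≤ n ∧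
      (∀ w ∈ S, G.dist v w ≤ r) ∧ 0 < S.card ∧
      2 * S.card ≤ {w : V | G.dist v w ≤ r}.ncard ∧
      (({w : V | G.dist v w ≤ r ∧ w ∉ S ∧ ∃ s ∈ S, G.Adj s w}.ncard : ℕ) : ℝ) ≤
        1000 * ((D : ℝ) + 1) ^ 2 * Real.log (2 * κ) / Real.log n * (S.card : ℝ) := by
  by_contra hcon
  push Not at hcon
  set c : ℝ := 1000 * ((D : ℝ) + 1) ^ 2 * Real.log (2 * κ) / Real.log n with hc
  have hc0 : 0 < c := by
    have h1 : 0 < Real.log (2 * κ) := Real.log_pos (by linarith)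
    have h2 : 0 < Real.log n := Real.log_pos (by
      have : (2 : ℝ) ≤ n := by exact_mod_cast hn
      linarith)
    positivity
  have hexp : ∀ (v : V) (r : ℕ), r ≤ n → BE G c v r :=
    fun v r hr S h1 h2 h3 => hcon v r S hr h1 h2 h3
  have hcD : c < D := c_lt hG hD x (hexp x 1 (by omega))
  obtain ⟨w, hw⟩ := exists_growing hG hD hc0 n hexp
  have hgr : (1 + c) ^ (n / 4) ≤ κ * lam ^ (n / 4) :=
    (hw (n / 4) le_rfl).trans (hup w (n / 4) (Nat.div_le_self n 4))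
  obtain ⟨k, M, R, h1, h2, h3, h4⟩ := numerics D _ rfl n lam κ hn hlam hκ hcD hgr
  have h5 := core hG hD hc0 n hexp lam κ hlam hκ hup x hx k M R h1 h2 h3
  omega

end Pool.Agent.Results.MP_515f4e_co.ExpansionRate
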