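import Pool.Agent.TXT.Tree

set_option autoImplicit false

/-!
# An infinite graph all of whose balls are expanders up to a logarithm of their size

The product of two 4-regular trees: for all vertices `v` and all `r` the ball `B(v,r)` has Cheeger
constant more than `c / log |B(v,r)|`.
-/

namespace Pool.Agent.Results.MP_515f4e_co.LogarithmicRate

open Pool.Agent.TXT

/-- There are an infinite connected graph of bounded degree and `c > 0` such that for every ball
`B(v,r)` and every nonempty vertex set `S` in `B(v,r)` with at most half of its vertices, the number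
of vertices of `B(v,r)` outside `S` adjacent to `S` exceeds `c |S| / log |B(v,r)|`. -/
theorem result :
    ∃ (V : Type) (G : SimpleGraph V), Infinite V ∧ G.Connected ∧
      (∃ D : ℕ, ∀ v : V, (G.neighborSet v).encard ≤ (D : ℕ∞)) ∧
      ∃ c : ℝ, 0 < c ∧
        ∀ (v : V) (r : ℕ) (S : Finset V),
          (∀ w ∈ S, G.dist v w ≤ r) →
          0 < S.card →
          2 * S.card ≤ {w : V | G.dist v w ≤ r}.ncard →
          c / Real.log (({w : V | G.dist v w ≤ r}.ncard : ℕ) : ℝ) * (S.card : ℝ) <
            (({w : V | G.dist v w ≤ r ∧ w ∉ S ∧ ∃ s ∈ S, G.Adj s w}.ncard : ℕ) : ℝ) :=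
  ⟨VV, TT, infinite_VV, connected, ⟨8, degree⟩, 1 / 131, by norm_num, fun v r S h1 h2 h3 =>
    tree_log v r S h1 h2 h3⟩

end Pool.Agent.Results.MP_515f4e_co.LogarithmicRate
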