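import Pool.Agent.FGT.CayD

set_option autoImplicit false

namespace Pool.Agent.Results.MP_515f4e_co.RegularLanguage

open Pool.Agent.MP_515f4e_co Pool.Agent.FGT

/-- Let `Γ` be an infinite group with finite generating set `S`, `1 ∉ S`, `G` its Cayley graph (`g` and `h`
are adjacent if `g ≠ h` and `g⁻¹ h ∈ S` or `h⁻¹ g ∈ S`), and `L` a regular language over the alphabet `S`
such that, for all `n`, `L` has at most `C |B(1,n)|` words of length `n` and its words of length at most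
`n` represent at least `|B(1,n)| / C` elements of `Γ`.  Then the balls of `G` are not uniform expanders. -/
theorem result (Γ : Type) [Group Γ] (hΓ : Infinite Γ) (S : Finset Γ)
    (hS : Subgroup.closure (S : Set Γ) = ⊤) (h1 : (1 : Γ) ∉ S) (G : SimpleGraph Γ)
    (hG : ∀ g h : Γ, G.Adj g h ↔ g ≠ h ∧ (g⁻¹ * h ∈ S ∨ h⁻¹ * g ∈ S))
    (L : Language S) (hL : L.IsRegular) (C : ℕ)
    (hC : ∀ n : ℕ, {w : List S | w ∈ L ∧ w.length = n}.ncard ≤ C * {g : Γ | G.dist 1 g ≤ n}.ncard)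
    (hrep : ∀ n : ℕ, {g : Γ | G.dist 1 g ≤ n}.ncard ≤
      C * {g : Γ | ∃ w : List S, w ∈ L ∧ w.length ≤ n ∧ (w.map Subtype.val).prod = g}.ncard)
    (c : ℝ) (hc : 0 < c) :
    ∃ (v : Γ) (r : ℕ) (T : Finset Γ),
      (∀ w ∈ T, G.dist v w ≤ r) ∧ 0 < T.card ∧
      2 * T.card ≤ {w : Γ | G.dist v w ≤ r}.ncard ∧
      (({w : Γ | G.dist v w ≤ r ∧ w ∉ T ∧ ∃ s ∈ T, G.Adj s w}.ncard : ℕ) : ℝ) ≤
        c * (T.card : ℝ) := by
  have hGC : G = Cay S := by
    ext g h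
    rw [hG, Cay, SimpleGraph.fromRel_adj]
  subst hGC
  by_contra hcon
  push Not at hcon
  obtain ⟨σ, hσ, M, rfl⟩ := hL
  exact cay_main S hS h1 hc (fun v r S h1 h2 h3 => hcon v r S h1 h2 h3) M C hC hrep

end Pool.Agent.Results.MP_515f4e_co.RegularLanguage
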